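import Pool.Agent.K3h63.PD.Tens
import Pool.Agent.R905.Div

/-!
# Nilpotence for the tensor powers of a Kimura finite object
-/

set_option autoImplicit false
set_option linter.unusedSectionVars false
set_option backward.isDefEq.respectTransparency false
set_option backward.defeqAttrib.useBackward true

open scoped Pointwise

namespace Pool.Agent.Zk51.KT

section Alg

open Pool.Agent.TH829.Kim

variable {R : Type*} [Ring R] [Algebra ℚ R] {tr : R →ₗ[ℚ] ℚ}

/-- The two-sided ideal attached to an even or odd idempotent is nilpotent. -/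
theorem exists_ideal (hsym : ∀ a b, tr (a * b) = tr (b * a)) {g : R} (hgg : g * g = g)
    {η : ℚ} (hη : η ≠ 0) {m : ℕ} (hO : Killed tr η g m) : ∃ S : Submodule ℚ R,
      (∀ a, ∀ s ∈ S, a * s ∈ S) ∧ (∀ a, ∀ s ∈ S, s * a ∈ S) ∧ (∃ k : ℕ, S ^ k = ⊥) ∧
      ∀ x, InRad tr x → x * g ∈ S := by
  -- the part of the radical in the piece
  let B : Submodule ℚ R :=
    { carrier := {a | InRad tr a ∧ g * a = a}
      zero_mem' := ⟨fun γ => by rw [zero_mul, map_zero], mul_zero _⟩
      add_mem' := by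
        rintro a b ⟨h1, h2⟩ ⟨h3, h4⟩
        exact ⟨h1.add h3, by rw [mul_add, h2, h4]⟩
      smul_mem' := by
        rintro q a ⟨h1, h2⟩
        refine ⟨fun γ => ?_, by rw [mul_smul_comm, h2]⟩
        rw [smul_mul_assoc, map_smul, h1, smul_zero] }
  let N : Submodule ℚ R :=
    { carrier := {a | InRad tr a}
      zero_mem' := fun γ => by rw [zero_mul, map_zero]
      add_mem' := fun {a b} h1 h2 => InRad.add h1 h2
      smul_mem' := fun q a h1 γ => by rw [smul_mul_assoc, map_smul, h1, smul_zero] }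
  have hB : ∀ x ∈ B, ∀ y ∈ B, x * y ∈ B := by
    rintro a ⟨h1, h2⟩ b ⟨h3, h4⟩
    exact ⟨h1.mul_right b, by rw [← mul_assoc, h2]⟩
  have hBn : B ^ (2 ^ (m + 1) - 1) = ⊥ := by
    rw [eq_bot_iff]
    apply nagata_higman m hB bot_le
    · intro x _ y hy
      rw [Submodule.mem_bot] at hy ⊢
      rw [hy, mul_zero]
    · intro x hx y _
      rw [Submodule.mem_bot] at hx ⊢
      rw [hx, zero_mul]
    · rintro a ⟨h1, h2⟩
      rw [Submodule.mem_bot]
      exact h1.pow_eq_zero h2 hη hO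
  -- the ideal `N g R`
  let G : Submodule ℚ R := Submodule.span ℚ {g} * ⊤
  let S : Submodule ℚ R := N * G
  have hGN : G * N ≤ B := by
    rw [Submodule.mul_le]
    intro a ha b hb
    refine ⟨hb.mul_left hsym a, ?_⟩
    obtain ⟨c, rfl⟩ : ∃ c, a = g * c := by
      have h1 : Submodule.span ℚ {g} * ⊤ ≤ LinearMap.range (LinearMap.mulLeft ℚ g) := by
        rw [Submodule.mul_le]
        intro u hu v _
        obtain ⟨q, rfl⟩ := Submodule.mem_span_singleton.1 hu
        exact ⟨q • v, by rw [LinearMap.mulLeft_apply, mul_smul_comm, smul_mul_assoc]⟩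
      obtain ⟨c, hc⟩ := h1 ha
      exact ⟨c, hc.symm⟩
    rw [← mul_assoc, ← mul_assoc, hgg]
  have hSpow : ∀ k, S ^ (k + 1) ≤ N * B ^ k * G := by
    intro k
    induction k with
    | zero => rw [zero_add, pow_one, pow_zero, mul_one]
    | succ k ih =>
      calc S ^ (k + 1 + 1) = S ^ (k + 1) * S := pow_succ _ _
        _ ≤ N * B ^ k * G * (N * G) := by gcongr
        _ = N * B ^ k * (G * N) * G := by simp only [mul_assoc]
        _ ≤ N * B ^ k * B * G := by gcongr
        _ = N * B ^ (k + 1) * G := by rw [pow_succ]; simp only [mul_assoc]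
  have hSnil : S ^ (2 ^ (m + 1) - 1 + 1) = ⊥ := by
    rw [eq_bot_iff]
    refine (hSpow _).trans ?_
    rw [hBn, Submodule.mul_bot, Submodule.bot_mul]
  refine ⟨S, ?_, ?_, ⟨_, hSnil⟩, ?_⟩
  · intro a s hs
    have h1 : (⊤ : Submodule ℚ R) * S ≤ S := by
      rw [← mul_assoc]
      have h2 : (⊤ : Submodule ℚ R) * N ≤ N := Submodule.mul_le.2 fun u _ v hv =>
        InRad.mul_left hsym hv u
      exact mul_le_mul' h2 le_rfl
    exact h1 (Submodule.mul_mem_mul Submodule.mem_top hs)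
  · intro a s hs
    have h1 : S * (⊤ : Submodule ℚ R) ≤ S := by
      rw [show S * (⊤ : Submodule ℚ R) = N * (Submodule.span ℚ {g} * (⊤ * ⊤)) by
        simp only [S, G, mul_assoc]]
      exact mul_le_mul' le_rfl (mul_le_mul' le_rfl le_top)
    exact h1 (Submodule.mul_mem_mul hs Submodule.mem_top)
  · intro x hx
    have : g ∈ G := by
      have := Submodule.mul_mem_mul (Submodule.mem_span_singleton_self (R := ℚ) g)
        (Submodule.mem_top (R := ℚ) (x := (1 : R)))
      rwa [mul_one] at this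
    exact Submodule.mul_mem_mul (show x ∈ N from hx) this

/-- Finite sums of elements of nilpotent ideals are nilpotent. -/
theorem nil_sum {ι : Type*} (S : ι → Submodule ℚ R)
    (hl : ∀ j a, ∀ s ∈ S j, a * s ∈ S j) (hr : ∀ j a, ∀ s ∈ S j, s * a ∈ S j)
    (hn : ∀ j, ∃ k : ℕ, S j ^ k = ⊥) (y : ι → R) (hy : ∀ j, y j ∈ S j) (s : Finset ι) :
    IsNilpotent (∑ j ∈ s, y j) := by
  classical
  induction s using Finset.induction_on with
  | empty => exact ⟨1, by simp⟩
  | insert a s ha ih =>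
    rw [Finset.sum_insert ha]
    obtain ⟨n, hz⟩ := ih
    set z := ∑ j ∈ s, y j
    have h1 : ∀ k, (y a + z) ^ k - z ^ k ∈ S a := by
      intro k
      induction k with
      | zero =>
        rw [pow_zero, pow_zero, sub_self]
        exact (S a).zero_mem
      | succ k ih =>
        have e : (y a + z) ^ (k + 1) - z ^ (k + 1) =
            ((y a + z) ^ k - z ^ k) * (y a + z) + z ^ k * y a := by
          rw [pow_succ, pow_succ]
          noncomm_ring
        rw [e]
        exact (S a).add_mem (hr a _ _ ih) (hl a _ _ (hy a))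
    have h2 := h1 n
    rw [hz, sub_zero] at h2
    obtain ⟨k, hk⟩ := hn a
    refine ⟨n * k, ?_⟩
    rw [pow_mul]
    have h3 := Submodule.pow_mem_pow (S a) h2 k
    rw [hk, Submodule.mem_bot] at h3
    exact h3

end Alg

open CategoryTheory Limits MonoidalCategory
open Pool.Agent.Y112.SR Pool.Agent.Y112.KD Pool.Agent.R905
open Pool.Agent.TH829.Kim (InRad Killed)

universe v u w

section

variable {C : Type u} [Category.{v} C] [Preadditive C] [Linear ℚ C] [MonoidalCategory C]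
  [MonoidalPreadditive C] [MonoidalLinear ℚ C] [SymmetricCategory C]

lemma asym_unit : asym (-1 : ℚ) (𝟙_ C) 2 = 0 := by
  have hb : (β_ (𝟙_ C) (𝟙_ C)).hom = 𝟙 _ := by
    rw [braiding_tensorUnit_left, unitors_equal, Iso.hom_inv_id]
  have hs : sw (tp (𝟙_ C) 0) (𝟙_ C) = 𝟙 _ := by
    unfold sw
    rw [hb]
    simp
  rw [asym_succ, asym_one, hs]
  simp

/-- The object `M` has a finite decomposition into objects with a vanishing exterior or symmetric
power. -/
def Dec (M : C) : Prop := ∃ (ι : Type) (_ : Fintype ι) (P : ι → C) (i : ∀ j, P j ⟶ M)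
  (r : ∀ j, M ⟶ P j), (∀ j, i j ≫ r j = 𝟙 _) ∧ (∑ j, r j ≫ i j = 𝟙 M) ∧
  ∀ j, ∃ (κ : ℚ) (n : ℕ), κ * κ = 1 ∧ asym κ (P j) (n + 1) = 0

lemma dec_unit : Dec (𝟙_ C) :=
  ⟨Unit, inferInstance, fun _ => 𝟙_ C, fun _ => 𝟙 _, fun _ => 𝟙 _, fun _ => Category.comp_id _,
    by simp, fun _ => ⟨-1, 1, by norm_num, asym_unit⟩⟩

lemma sum_tensor {M N : C} {ι κ : Type} [Fintype ι] [Fintype κ] (f : ι → (M ⟶ M))
    (g : κ → (N ⟶ N)) : ∑ j : ι × κ, (f j.1 ⊗ₘ g j.2) = (∑ j, f j) ⊗ₘ (∑ k, g k) := by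
  rw [Fintype.sum_prod_type]
  simp only
  have h1 : ∀ x : ι, ∑ y : κ, (f x ⊗ₘ g y) = f x ⊗ₘ (∑ k, g k) := fun x => by
    simp only [MonoidalCategory.tensorHom_def]
    rw [whiskerLeft_sum, Preadditive.comp_sum]
  rw [Finset.sum_congr rfl fun x _ => h1 x]
  simp only [MonoidalCategory.tensorHom_def]
  rw [sum_whiskerRight, Preadditive.sum_comp]

lemma Dec.tensor {M N : C} (hM : Dec M) (hN : Dec N) : Dec (M ⊗ N) := by
  obtain ⟨ι, _, P, i, r, h1, h2, h3⟩ := hM
  obtain ⟨κ, _, Q, j, s, k1, k2, k3⟩ := hN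
  refine ⟨ι × κ, inferInstance, fun a => P a.1 ⊗ Q a.2, fun a => i a.1 ⊗ₘ j a.2,
    fun a => r a.1 ⊗ₘ s a.2, fun a => ?_, ?_, fun a => ?_⟩
  · rw [tensorHom_comp_tensorHom, h1, k1, id_tensorHom_id]
  · have e : ∀ a : ι × κ, (r a.1 ⊗ₘ s a.2) ≫ (i a.1 ⊗ₘ j a.2) =
        ((r a.1 ≫ i a.1) ⊗ₘ (s a.2 ≫ j a.2)) := fun a => tensorHom_comp_tensorHom _ _ _ _
    rw [Finset.sum_congr rfl fun a _ => e a,
      sum_tensor (fun a => r a ≫ i a) (fun a => s a ≫ j a), h2, k2, id_tensorHom_id]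
  · obtain ⟨x, m, hx, hm⟩ := h3 a.1
    obtain ⟨y, n, hy, hn⟩ := k3 a.2
    obtain ⟨l, hl⟩ := Pool.Agent.K3h63.PD.tensor_kill hx hy hm hn
    have hxy : -(x * y) * -(x * y) = 1 := by linear_combination (y * y) * hx + hy
    exact ⟨-(x * y), l, hxy, asym_mono hxy _ hl⟩

lemma dec_tp {M : C} (hM : Dec M) (n : ℕ) : Dec (tp M n) := by
  induction n with
  | zero => exact dec_unit
  | succ n ih => exact ih.tensor hM

lemma dec_of_kimura [IsIdempotentComplete C] {M : C} (h : IsKimuraFinite M) : Dec M := by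
  obtain ⟨E, O, i, r, i', r', h1, h2, h3, ⟨n, hn⟩, m, hm⟩ := (isKimuraFinite_iff M).1 h
  refine ⟨Bool, inferInstance, fun b => if b then E else O,
    fun b => match b with | true => i | false => i',
    fun b => match b with | true => r | false => r', ?_, ?_, ?_⟩
  · intro b
    cases b
    · exact h2
    · exact h1
  · rw [Fintype.sum_bool]
    exact h3
  · intro b
    cases b
    · exact ⟨1, m, by norm_num, asym_mono (by norm_num) O hm⟩
    · exact ⟨-1, n, by norm_num, asym_mono (by norm_num) E hn⟩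

variable [RightRigidCategory C] {K : Type w} [Field K] (R : SuperRealisation C K)

include R in
/-- Homologically trivial endomorphisms of `M` are nilpotent. -/
theorem Dec.homNil (hU : UnitQ C) {M : C} (h : Dec M) : HomNil R M := by
  obtain ⟨ι, _, P, i, r, h1, h2, h3⟩ := h
  intro f hf
  have hr := inRad_of_map R hU f hf
  have hsym : ∀ a b : End M, trq hU M (a * b) = trq hU M (b * a) := by
    intro a b
    rw [End.mul_def, End.mul_def]
    exact trq_comm' R hU _ _
  have key : ∀ j, ∃ S : Submodule ℚ (End M),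
      (∀ a, ∀ s ∈ S, a * s ∈ S) ∧ (∀ a, ∀ s ∈ S, s * a ∈ S) ∧ (∃ k : ℕ, S ^ k = ⊥) ∧
      ∀ x, InRad (trq hU M) x → x * en (r j ≫ i j) ∈ S := by
    intro j
    obtain ⟨κ, n, hκ, hn⟩ := h3 j
    have hκ0 : κ ≠ 0 := by
      rintro rfl
      norm_num at hκ
    refine exists_ideal hsym ?_ hκ0 (killed hU hκ (i j) (r j) n hn (en (r j ≫ i j)) rfl)
    rw [End.mul_def]
    change (r j ≫ i j) ≫ r j ≫ i j = r j ≫ i j
    rw [Category.assoc, reassoc_of% (h1 j)]
  choose S hS1 hS2 hS3 hS4 using key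
  have h4 : ∑ j, en (r j ≫ i j) = 1 := h2
  have h5 : f = ∑ j, f * en (r j ≫ i j) := by rw [← Finset.mul_sum, h4, mul_one]
  rw [h5]
  exact nil_sum S hS1 hS2 hS3 _ (fun j => hS4 j f hr) Finset.univ

include R in
/-- Homologically trivial endomorphisms of the tensor powers of a Kimura finite object are
nilpotent. -/
theorem homNil_tp [IsIdempotentComplete C] (hU : UnitQ C) {M : C} (h : IsKimuraFinite M) (n : ℕ) :
    HomNil R (tp M n) :=
  (dec_tp (dec_of_kimura h) n).homNil R hU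

end

end Pool.Agent.Zk51.KT
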