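import Pool.Agent.Zk51.KT.Pull

/-!
# Kimura finiteness from nilpotence in a tensor subcategory
-/

set_option autoImplicit false
set_option linter.unusedSectionVars false
set_option backward.isDefEq.respectTransparency false
set_option backward.defeqAttrib.useBackward true

open CategoryTheory Limits MonoidalCategory Module
open Pool.Agent.Y112.SR Pool.Agent.Y112.KD Pool.Agent.R905 Pool.Agent.N64.AF
open Pool.Agent.N861.AF Pool.Agent.TH829.Kim Pool.Agent.N8.AFBb
open CategoryTheory.Functor.LaxMonoidal CategoryTheory.Functor.OplaxMonoidal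

namespace Pool.Agent.Zk51.KT

universe v u w v' u'

section

variable {C : Type u} [Category.{v} C] [Preadditive C] [Linear ℚ C] [MonoidalCategory C]
  [MonoidalPreadditive C] [MonoidalLinear ℚ C] [SymmetricCategory C] [IsIdempotentComplete C]
  {K : Type w} [Field K] (R : SuperRealisation C K)

include R in
/-- The decomposition of `M` by an idempotent which lifts the even projector. -/
lemma parts_of_idem {M : C} (e : M ⟶ M) (he : e ≫ e = e)
    (hpar : R.par M = (2 : K) • R.H.map e - 𝟙 _) : ∃ (E O : C) (i : E ⟶ M)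
    (r : M ⟶ E) (i' : O ⟶ M) (r' : M ⟶ O), i ≫ r = 𝟙 E ∧ i' ≫ r' = 𝟙 O ∧
    r ≫ i = e ∧ r' ≫ i' = 𝟙 M - e ∧ R.par E = (1 : K) • 𝟙 _ ∧ R.par O = (-1 : K) • 𝟙 _ := by
  have he' : (𝟙 M - e) ≫ (𝟙 M - e) = 𝟙 M - e := by
    rw [Preadditive.sub_comp, Preadditive.comp_sub, Preadditive.comp_sub, he]
    simp
  obtain ⟨E, i, r, h1, h2'⟩ := IsIdempotentComplete.idempotents_split M e he
  obtain ⟨O, i', r', h3, h4⟩ := IsIdempotentComplete.idempotents_split M (𝟙 M - e) he'
  refine ⟨E, O, i, r, i', r', h1, h3, h2', h4, ?_, ?_⟩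
  · have e1 : R.H.map i ≫ R.par M ≫ R.H.map r = R.par E := by
      rw [← Category.assoc, R.par_natural, Category.assoc, ← Functor.map_comp, h1]
      simp
    rw [← e1, hpar, ← h2', Preadditive.sub_comp, Preadditive.comp_sub, Linear.smul_comp,
      Linear.comp_smul, Category.id_comp, ← Functor.map_comp, ← Functor.map_comp,
      ← Functor.map_comp]
    have e2 : i ≫ (r ≫ i) ≫ r = 𝟙 E := by
      rw [Category.assoc, reassoc_of% h1, h1]
    rw [e2, h1, CategoryTheory.Functor.map_id]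
    module
  · have e1 : R.H.map i' ≫ R.par M ≫ R.H.map r' = R.par O := by
      rw [← Category.assoc, R.par_natural, Category.assoc, ← Functor.map_comp, h3]
      simp
    have e3 : (e : M ⟶ M) = 𝟙 M - r' ≫ i' := by rw [h4]; abel
    rw [← e1, hpar, Preadditive.sub_comp, Preadditive.comp_sub, Linear.smul_comp,
      Linear.comp_smul, Category.id_comp, ← Functor.map_comp, ← Functor.map_comp,
      ← Functor.map_comp]
    have e2 : i' ≫ (e : M ⟶ M) ≫ r' = 0 := by
      rw [e3, Preadditive.sub_comp, Preadditive.comp_sub, Category.id_comp, h3, Category.assoc,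
        reassoc_of% h3, h3, sub_self]
    rw [e2, h3, CategoryTheory.Functor.map_id, Functor.map_zero]
    module

end

section

variable {C : Type u} [Category.{v} C] [Preadditive C] [MonoidalCategory C] [SymmetricCategory C]
  [Linear ℚ C] {K : Type w} [Field K] [Algebra ℚ K] {R : SuperRealisation C K}
  {D : Type u'} [Category.{v'} D] [Preadditive D] [MonoidalCategory D] [SymmetricCategory D]
  [Linear ℚ D] (Φ : D ⥤ C) [Φ.Braided] [Φ.Additive] [Φ.Linear ℚ]

lemma pull_real [Φ.Faithful] (hR : IsReal ℚ R) : IsReal ℚ (pull R Φ) where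
  unit c := by
    obtain ⟨q, hq⟩ := hR.unit (ε Φ ≫ Φ.map c ≫ η Φ)
    refine ⟨q, Φ.map_injective ?_⟩
    have h1 : η Φ ≫ (ε Φ ≫ Φ.map c ≫ η Φ) ≫ ε Φ = Φ.map c := by simp
    rw [← h1, hq, Linear.smul_comp, Linear.comp_smul, Category.id_comp,
      Functor.Monoidal.η_ε, Functor.map_smul, CategoryTheory.Functor.map_id]
  lin a f := by
    change R.H.map (Φ.map (a • f)) = _ • R.H.map (Φ.map f)
    rw [Functor.map_smul, hR.lin]

end

lemma unitQ_of_real {C : Type u} [Category.{v} C] [Preadditive C] [Linear ℚ C]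
    [MonoidalCategory C] [MonoidalPreadditive C] [MonoidalLinear ℚ C] [SymmetricCategory C]
    [RightRigidCategory C] {K : Type w} [Field K] [Algebra ℚ K] {R : SuperRealisation C K}
    (hR : IsReal ℚ R) : UnitQ C := by
  have hc := R_charZero R
  refine ⟨hR.unit, fun h => ?_⟩
  have h1 := bt_unit R
  have h2 : 𝟙 (R.H.obj (𝟙_ C)) = 0 := by
    rw [← CategoryTheory.Functor.map_id, h, Functor.map_zero]
  have h3 : IsZero (R.H.obj (𝟙_ C)) := (IsZero.iff_id_eq_zero _).2 h2
  have h4 : Subsingleton (R.H.obj (𝟙_ C)) := ModuleCat.subsingleton_of_isZero h3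
  unfold bt at h1
  rw [finrank_zero_of_subsingleton] at h1
  exact zero_ne_one h1

section

variable {C : Type u} [Category.{v} C] [Preadditive C] [MonoidalCategory C]
  [MonoidalPreadditive C] [SymmetricCategory C] [RightRigidCategory C]
  [Linear ℚ C] [MonoidalLinear ℚ C] [IsIdempotentComplete C]
  {K : Type w} [Field K] [Algebra ℚ K] {R : SuperRealisation C K}
  {D : Type u'} [Category.{v'} D] [Preadditive D] [MonoidalCategory D]
  [MonoidalPreadditive D] [SymmetricCategory D] [RightRigidCategory D]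
  [Linear ℚ D] [MonoidalLinear ℚ D]
  (Φ : D ⥤ C) [Φ.Braided] [Φ.Additive] [Φ.Linear ℚ] [Φ.Faithful]

/-- Kimura finiteness from the nilpotence of the homologically trivial endomorphisms in the
subcategory. -/
theorem kimura_of_pull (hR : IsReal ℚ R) {T : D} (p : T ⟶ T)
    (hp : (2 : K) • R.H.map (Φ.map p) = 𝟙 _ + R.par (Φ.obj T))
    (hnil : ∀ n ≤ bt R (Φ.obj T) + 1, ∀ y : End (tp T n),
      R.H.map (Φ.map (y : tp T n ⟶ tp T n)) = 0 → IsNilpotent y) (hb : 0 < bt R (Φ.obj T)) :
    IsKimuraFinite (Φ.obj T) := by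
  have hc := R_charZero R
  have h2 : (2 : K) ≠ 0 := two_ne_zero
  have hU : UnitQ C := unitQ_of_real hR
  -- nilpotence on `T`
  have hT : HomNil (pull R Φ) T := by
    have h1 : HomNil (pull R Φ) (tp T 1) := fun y hy => hnil 1 (by omega) y hy
    exact h1.retract (λ_ T).inv (λ_ T).hom (by simp)
  -- the idempotent
  have hff : R.H.map (Φ.map p) ≫ R.H.map (Φ.map p) = R.H.map (Φ.map p) := by
    have e1 : (2 : K) • ((2 : K) • (R.H.map (Φ.map p) ≫ R.H.map (Φ.map p))) =
        (2 : K) • ((2 : K) • R.H.map (Φ.map p)) := by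
      have e2 : (2 : K) • ((2 : K) • (R.H.map (Φ.map p) ≫ R.H.map (Φ.map p))) =
          ((2 : K) • R.H.map (Φ.map p)) ≫ ((2 : K) • R.H.map (Φ.map p)) := by
        rw [Linear.smul_comp, Linear.comp_smul]
      rw [e2, hp, Preadditive.add_comp, Preadditive.comp_add, Preadditive.comp_add, R.par_sq]
      simp only [Category.id_comp, Category.comp_id]
      module
    have e3 := congrArg (fun z => (2 : K)⁻¹ • ((2 : K)⁻¹ • z)) e1
    have e4 : (2 : K)⁻¹ * ((2 : K)⁻¹ * (2 * 2)) = 1 := by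
      field_simp
    simpa only [smul_smul, e4, one_smul] using e3
  have hpp : R.H.map (Φ.map (p ≫ p - p)) = 0 := by
    rw [Functor.map_sub, Functor.map_sub, Functor.map_comp, Functor.map_comp, hff, sub_self]
  have hnil' : IsNilpotent (en p * en p - en p) := hT _ hpp
  obtain ⟨e, he1, hHe⟩ : ∃ e : T ⟶ T, e ≫ e = e ∧ R.H.map (Φ.map e) = R.H.map (Φ.map p) := by
    obtain ⟨e, c, he, hec⟩ := exists_lift hnil'
    refine ⟨e, he, ?_⟩
    have e2 : e = en p + (en p * en p - en p) * c := by rw [← hec]; abel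
    have e1 : (e : T ⟶ T) = p + (c : T ⟶ T) ≫ (p ≫ p - p) := e2
    rw [e1, Functor.map_add, Functor.map_comp, Functor.map_add, Functor.map_comp, hpp,
      comp_zero, add_zero]
  have hpar : R.par (Φ.obj T) = (2 : K) • R.H.map (Φ.map e) - 𝟙 _ := by
    rw [hHe, hp]
    simp
  have hΦe : Φ.map e ≫ Φ.map e = Φ.map e := by rw [← Functor.map_comp, he1]
  obtain ⟨E, O, i, r, i', r', h1, h3, h5, h6, hE, hO⟩ := parts_of_idem R (Φ.map e) hΦe hpar
  -- the vanishing of the powers
  have key : ∀ (P : C) (i : P ⟶ Φ.obj T) (r : Φ.obj T ⟶ P) (g : T ⟶ T) (d : ℚ),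
      i ≫ r = 𝟙 P → r ≫ i = Φ.map g → g ≫ g = g → d * d = 1 → R.par P = (d : K) • 𝟙 _ →
      asym (-d) P (finrank K (R.H.obj P) + 1) = 0 := by
    intro P i r g d hir hri hgg hd hP
    have hfin := R.finite (Φ.obj T)
    have hfinP := R.finite P
    have hle : finrank K (R.H.obj P) ≤ bt R (Φ.obj T) := by
      have h4 : (R.H.map r).hom ∘ₗ (R.H.map i).hom = LinearMap.id := by
        have h5 := congrArg (fun f => (R.H.map f).hom) hir
        simp only [Functor.map_comp, ModuleCat.hom_comp, CategoryTheory.Functor.map_id,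
          ModuleCat.hom_id] at h5
        exact h5
      refine LinearMap.finrank_le_finrank_of_injective (f := (R.H.map i).hom) ?_
      intro a c hac
      have h5 := congrArg (fun f => f a) h4
      have h6 := congrArg (fun f => f c) h4
      simp only [LinearMap.comp_apply, LinearMap.id_apply] at h5 h6
      rw [← h5, ← h6, hac]
    have hη : (-d) * (-d) = 1 := by linear_combination hd
    obtain ⟨n, hn⟩ : ∃ n, n = finrank K (R.H.obj P) + 1 := ⟨_, rfl⟩
    have hmap := map_asym_zero R hU d hd hP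
    rw [← hn] at hmap ⊢
    -- the element of the subcategory
    set x : tp T n ⟶ tp T n := tpm g n ≫ asym (-d) T n with hx
    have hcomm : tpm g n ≫ asym (-d) T n = asym (-d) T n ≫ tpm g n := asym_nat g n
    have hxx : x ≫ x = x := by
      calc x ≫ x = tpm g n ≫ (asym (-d) T n ≫ tpm g n) ≫ asym (-d) T n := by
            rw [hx]; simp only [Category.assoc]
        _ = (tpm g n ≫ tpm g n) ≫ (asym (-d) T n ≫ asym (-d) T n) := by
            rw [← hcomm]; simp only [Category.assoc]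
        _ = x := by rw [tpm_comp, hgg, asym_idem hη]
    have hΦx : (jj Φ T n).hom ≫ Φ.map x =
        (tpm r n ≫ asym (-d) P n ≫ tpm i n) ≫ (jj Φ T n).hom := by
      have e1 : tpm r n ≫ asym (-d) P n ≫ tpm i n = tpm (Φ.map g) n ≫ asym (-d) (Φ.obj T) n := by
        rw [← asym_nat i n, ← Category.assoc, tpm_comp, hri]
      rw [e1, Category.assoc, jj_asym, ← Category.assoc, jj_tpm, Category.assoc,
        ← Functor.map_comp]
    have hRx : R.H.map (Φ.map x) = 0 := by
      have e1 : Φ.map x = (jj Φ T n).inv ≫ (tpm r n ≫ asym (-d) P n ≫ tpm i n) ≫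
          (jj Φ T n).hom := by
        rw [← hΦx, Iso.inv_hom_id_assoc]
      rw [e1]
      simp only [Functor.map_comp, hmap, zero_comp, comp_zero]
    obtain ⟨k, hk⟩ := hnil n (by omega) (en x) hRx
    have hidem : IsIdempotentElem (en x) := hxx
    have hx0 : x = 0 := by
      have h2 := hidem.pow_succ_eq k
      rw [pow_succ, hk, zero_mul] at h2
      exact h2.symm
    have h7 : tpm r n ≫ asym (-d) P n ≫ tpm i n = 0 := by
      have e1 : (tpm r n ≫ asym (-d) P n ≫ tpm i n) ≫ (jj Φ T n).hom = 0 := by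
        rw [← hΦx, hx0, Functor.map_zero, comp_zero]
      have e2 := congrArg (fun z => z ≫ (jj Φ T n).inv) e1
      simpa using e2
    have h8 : tpm i n ≫ tpm r n = 𝟙 _ := by rw [tpm_comp, hir, tpm_id]
    calc asym (-d) P n = (tpm i n ≫ tpm r n) ≫ asym (-d) P n ≫ (tpm i n ≫ tpm r n) := by
          rw [h8, Category.id_comp, Category.comp_id]
      _ = tpm i n ≫ (tpm r n ≫ asym (-d) P n ≫ tpm i n) ≫ tpm r n := by
          simp only [Category.assoc]
      _ = 0 := by rw [h7, zero_comp, comp_zero]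
  have hn1 := key E i r e 1 h1 h5 he1 (by norm_num) (by rw [hE]; norm_num)
  have he' : (𝟙 T - e) ≫ (𝟙 T - e) = 𝟙 T - e := by
    rw [Preadditive.sub_comp, Preadditive.comp_sub, Preadditive.comp_sub, he1]
    simp
  have hm := key O i' r' (𝟙 T - e) (-1) h3 (by
    rw [h6, Functor.map_sub, CategoryTheory.Functor.map_id]) he' (by norm_num)
    (by rw [hO]; norm_num)
  rw [neg_neg] at hm
  refine (isKimuraFinite_iff _).2 ⟨E, O, i, r, i', r', h1, h3, ?_, ⟨_, hn1⟩, _, hm⟩
  rw [h5, h6]
  abel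

/-- The comparison of the endomorphisms. -/
noncomputable def cj (T : D) (n : ℕ) : End (tp T n) →* End (tp (Φ.obj T) n) where
  toFun f := (jj Φ T n).hom ≫ Φ.map (f : tp T n ⟶ tp T n) ≫ (jj Φ T n).inv
  map_one' := by
    change (jj Φ T n).hom ≫ Φ.map (𝟙 _) ≫ (jj Φ T n).inv = 𝟙 _
    simp
  map_mul' f g := by
    change (jj Φ T n).hom ≫ Φ.map ((g : tp T n ⟶ tp T n) ≫ (f : tp T n ⟶ tp T n)) ≫
      (jj Φ T n).inv = ((jj Φ T n).hom ≫ Φ.map (g : tp T n ⟶ tp T n) ≫ (jj Φ T n).inv) ≫
        (jj Φ T n).hom ≫ Φ.map (f : tp T n ⟶ tp T n) ≫ (jj Φ T n).inv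
    simp

lemma cj_zero (T : D) (n : ℕ) {f : End (tp T n)} (h : cj Φ T n f = 0) : f = 0 := by
  have h5 : Φ.map (f : tp T n ⟶ tp T n) = 0 := by
    have h6 : (jj Φ T n).hom ≫ Φ.map (f : tp T n ⟶ tp T n) ≫ (jj Φ T n).inv = 0 := h
    have h7 := congrArg (fun z => (jj Φ T n).inv ≫ z ≫ (jj Φ T n).hom) h6
    simpa using h7
  exact Φ.map_injective (h5.trans (Functor.map_zero _ _ _).symm)

/-- Numerically trivial endomorphisms in the subcategory are nilpotent if the object is Kimura
finite. -/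
theorem nil_of_kimura (hR : IsReal ℚ R) {T : D} (p : T ⟶ T)
    (hp : (2 : K) • R.H.map (Φ.map p) = 𝟙 _ + R.par (Φ.obj T))
    (h : IsKimuraFinite (Φ.obj T)) (n : ℕ) (y : End (tp T n))
    (hy : NumTriv (y : tp T n ⟶ tp T n)) : IsNilpotent y := by
  have hc := R_charZero R
  have hU : UnitQ C := unitQ_of_real hR
  have hR' : IsReal ℚ (pull R Φ) := pull_real Φ hR
  have hT : (pull R Φ).CPlus T := ⟨p, hp⟩
  have hTn := cplus_tp hR' hT n
  have hfin := fun Y => (pull R Φ).finite Y
  -- the realisation is nilpotent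
  have h1 : IsNilpotent (rho (pull R Φ) (tp T n) y) :=
    Pool.Agent.N8.AFBb.nil_of_perp (H := fun Y : D => (pull R Φ).H.obj Y) (isCat_CK (pull R Φ))
      (mem_CK (pull R Φ) _) ((mem_perp_iff hR' hTn y).2 hy)
  obtain ⟨k, hk⟩ := h1
  have h2 : R.H.map (Φ.map ((y ^ k : End (tp T n)) : tp T n ⟶ tp T n)) = 0 := by
    apply ModuleCat.hom_ext
    have h3 : rho (pull R Φ) (tp T n) (y ^ k) = 0 := by rw [map_pow, hk]
    exact h3
  -- transport
  obtain ⟨m, hm⟩ := homNil_tp R hU h n (cj Φ T n (y ^ k)) (by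
    change R.H.map ((jj Φ T n).hom ≫ Φ.map ((y ^ k : End (tp T n)) : tp T n ⟶ tp T n) ≫
      (jj Φ T n).inv) = 0
    rw [Functor.map_comp, Functor.map_comp, h2, zero_comp, comp_zero])
  rw [← map_pow] at hm
  refine ⟨k * m, ?_⟩
  rw [pow_mul]
  exact cj_zero Φ T n hm

end

end Pool.Agent.Zk51.KT
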