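import Pool.Agent.Zk51.KT.Main
import Pool.Agent.N64.AF.M5

/-!
# Kimura finiteness and nil systems
-/

set_option autoImplicit false
set_option linter.unusedSectionVars false
set_option backward.isDefEq.respectTransparency false
set_option backward.defeqAttrib.useBackward true

open CategoryTheory Limits MonoidalCategory Module Filter Topology
open Pool.Agent.Y112.SR Pool.Agent.Y112.KD Pool.Agent.R905 Pool.Agent.N64.AF
open Pool.Agent.N413.AFW Pool.Agent.Zk51.NK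
open scoped ENNReal

namespace Pool.Agent.Zk51.KT

universe v u w v' u'

variable {C : Type u} [Category.{v} C] [Preadditive C] [MonoidalCategory C]
  [MonoidalPreadditive C] [SymmetricCategory C] [RightRigidCategory C]
  [Linear ℚ C] [MonoidalLinear ℚ C] [IsIdempotentComplete C]
  {K : Type w} [Field K] [IsAlgClosed K] [Algebra ℚ K] {R : SuperRealisation C K}
  {D : Type u'} [Category.{v'} D] [Preadditive D] [MonoidalCategory D]
  [MonoidalPreadditive D] [SymmetricCategory D] [RightRigidCategory D]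
  [Linear ℚ D] [MonoidalLinear ℚ D]
  (Φ : D ⥤ C) [Φ.Braided] [Φ.Additive] [Φ.Linear ℚ] [Φ.Faithful]

/-- The nil system of the numerically trivial morphisms of a Kimura finite object. -/
noncomputable def numSystem (hR : IsReal ℚ R) {T : D} (p : T ⟶ T)
    (hp : (2 : K) • R.H.map (Φ.map p) = 𝟙 _ + R.par (Φ.obj T))
    (h : IsKimuraFinite (Φ.obj T)) (n : ℕ) : NilSystem (tp T n) where
  U Z := numIdeal ℚ (tp T n) Z
  comp g hf := by
    have h1 := NumTriv.comp (pull_real Φ hR) (mem_numIdeal.1 hf) (𝟙 _) g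
    rwa [Category.id_comp] at h1
  nil y hy := nil_of_kimura Φ hR p hp h n y hy

lemma ndim_numSystem (hR : IsReal ℚ R) {T : D} (p : T ⟶ T)
    (hp : (2 : K) • R.H.map (Φ.map p) = 𝟙 _ + R.par (Φ.obj T))
    (h : IsKimuraFinite (Φ.obj T)) (n : ℕ) (Z : D) : ndim (numSystem Φ hR p hp h n) Z = 0 := by
  unfold ndim
  have h1 : ((numSystem Φ hR p hp h n).U Z).submoduleOf (numIdeal ℚ (tp T n) Z) = ⊤ :=
    Submodule.submoduleOf_self _
  rw [h1]
  have h2 : Subsingleton (numIdeal ℚ (tp T n) Z ⧸ (⊤ : Submodule ℚ (numIdeal ℚ (tp T n) Z))) :=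
    Submodule.Quotient.subsingleton_iff.2 rfl
  rw [dimE_eq, finrank_zero_of_subsingleton]
  rfl

/-- If the numerically trivial endomorphisms of a power are nilpotent then the object is Kimura
finite. -/
theorem kimura_of_nil_power (hR : IsReal ℚ R) {T : D} (p : T ⟶ T)
    (hp : (2 : K) • R.H.map (Φ.map p) = 𝟙 _ + R.par (Φ.obj T)) (hb : 0 < bt R (Φ.obj T))
    (h : ∀ y : End (tp T (bt R (Φ.obj T) + 1)),
      NumTriv (y : tp T (bt R (Φ.obj T) + 1) ⟶ tp T (bt R (Φ.obj T) + 1)) → IsNilpotent y) :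
    IsKimuraFinite (Φ.obj T) := by
  have hR' : IsReal ℚ (pull R Φ) := pull_real Φ hR
  have hT : (pull R Φ).CPlus T := ⟨p, hp⟩
  have h1 : HomNil (pull R Φ) (tp T (bt R (Φ.obj T) + 1)) := fun y hy =>
    h y (numTriv_of_map hR' hy)
  have h2 := homNil_le hR' hT hb h1
  exact kimura_of_pull Φ hR p hp (fun n hn y hy => h2 n hn y hy) hb

/-- The growth of the numerically trivial morphisms modulo a nil system. -/
theorem growth_of_not_kimura (hR : IsReal ℚ R) {T : D} (p : T ⟶ T)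
    (hp : (2 : K) • R.H.map (Φ.map p) = 𝟙 _ + R.par (Φ.obj T)) (hb : 0 < bt R (Φ.obj T))
    (hK : ¬ IsKimuraFinite (Φ.obj T)) (S : NilSystem (tp T (bt R (Φ.obj T) + 1))) :
    Tendsto (fun n => ((ndim S (tp T (bt R (Φ.obj T) + 1) ⊗ tp (T ⊗ Tᘁ) n) : ℕ∞) : ℝ≥0∞) /
      numDim ℚ (tp T n) (tp T n)) atTop (𝓝 ⊤) ∧
    ∀ n : ℕ, 128 * bt R (Φ.obj T) ^ 12 ≤ n →
      ((bt R (Φ.obj T) ^ (2 * n) : ℕ) : ℕ∞) ≤
        (2 * (n + 1) ^ (bt R (Φ.obj T) ^ 2) : ℕ) *
          ndim S (tp T (bt R (Φ.obj T) + 1) ⊗ tp (T ⊗ Tᘁ) n) := by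
  have hR' : IsReal ℚ (pull R Φ) := pull_real Φ hR
  have hT : (pull R Φ).CPlus T := ⟨p, hp⟩
  have hb' : 0 < bt (pull R Φ) T := hb
  constructor
  · obtain ⟨inst, hS⟩ := isPow_tensor_dual hR' hT hb'
    obtain ⟨N, h1, -⟩ := law hS (kF hR' S)
    have hN : N = ⊤ := by
      by_contra hN
      obtain ⟨k, rfl⟩ := ENat.ne_top_iff_exists.1 hN
      apply hK
      refine kimura_of_nil_power Φ hR p hp hb fun y hy => ?_
      exact nil_of_lim hR' hS S (N := k) h1 y hy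
    rw [hN] at h1
    refine h1.congr fun n => ?_
    rw [numRank_tensor_dual hR', nr_one]
    rfl
  · intro n hn
    have h1 : ¬ Subsingleton ((kF hR' S).obj (tp (T ⊗ Tᘁ) 0)) := by
      intro hs
      apply hK
      refine kimura_of_nil_power Φ hR p hp hb fun y hy => ?_
      exact S.nil y (mem_of_zero hR' S hs y hy)
    have h2 := growth_gap hR' hT hb' (kF hR' S) (m := 0) (n := n) (by
      change 128 * (0 + 1) ^ 2 * bt R (Φ.obj T) ^ (4 * 0 + 12) ≤ n
      simpa using hn) h1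
    exact h2

/-- Kimura finiteness and the growth of the numerically trivial morphisms modulo nil systems. -/
theorem kimura_tfae (hR : IsReal ℚ R) {T : D} (p : T ⟶ T)
    (hp : (2 : K) • R.H.map (Φ.map p) = 𝟙 _ + R.par (Φ.obj T)) {b : ℕ}
    (hb : finrank K (R.H.obj (Φ.obj T)) = b) (h0 : 0 < b) :
    List.TFAE [IsKimuraFinite (Φ.obj T),
      ∀ m (y : End (tp T m)), NumTriv (y : tp T m ⟶ tp T m) → IsNilpotent y,
      ∃ S : NilSystem (tp T (b + 1)), ∀ Z : D, ndim S Z = 0,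
      ∃ (S : NilSystem (tp T (b + 1))) (n : ℕ), 128 * b ^ 12 ≤ n ∧
        (2 * (n + 1) ^ (b ^ 2) : ℕ) * ndim S (tp T (b + 1) ⊗ tp (T ⊗ Tᘁ) n) <
          ((b ^ (2 * n) : ℕ) : ℕ∞),
      ∃ S : NilSystem (tp T (b + 1)),
        ¬ Tendsto (fun n => ((ndim S (tp T (b + 1) ⊗ tp (T ⊗ Tᘁ) n) : ℕ∞) : ℝ≥0∞) /
          numDim ℚ (tp T n) (tp T n)) atTop (𝓝 ⊤)] := by
  subst hb
  have hb : 0 < bt R (Φ.obj T) := h0
  tfae_have 1 → 2 := fun h m y hy => nil_of_kimura Φ hR p hp h m y hy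
  tfae_have 2 → 1 := fun h => kimura_of_nil_power Φ hR p hp hb fun y hy => h _ y hy
  tfae_have 1 → 3 := fun h => ⟨numSystem Φ hR p hp h _, fun Z => ndim_numSystem Φ hR p hp h _ Z⟩
  tfae_have 3 → 4 := by
    rintro ⟨S, hS⟩
    refine ⟨S, _, le_rfl, ?_⟩
    rw [hS, mul_zero]
    have h1 : 0 < (finrank K (R.H.obj (Φ.obj T))) ^ (2 * (128 *
      (finrank K (R.H.obj (Φ.obj T))) ^ 12)) := pow_pos h0 _
    exact_mod_cast h1
  tfae_have 3 → 5 := by
    rintro ⟨S, hS⟩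
    refine ⟨S, fun h => ?_⟩
    have h1 : (fun n => ((ndim S (tp T (finrank K (R.H.obj (Φ.obj T)) + 1) ⊗
        tp (T ⊗ Tᘁ) n) : ℕ∞) : ℝ≥0∞) / numDim ℚ (tp T n) (tp T n)) = fun _ => 0 := by
      funext n
      rw [hS]
      simp
    rw [h1] at h
    exact ENNReal.zero_ne_top (tendsto_nhds_unique tendsto_const_nhds h)
  tfae_have 4 → 1 := by
    rintro ⟨S, n, hn, hlt⟩
    by_contra hK
    exact absurd ((growth_of_not_kimura Φ hR p hp hb hK S).2 n hn) (not_le.2 hlt)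
  tfae_have 5 → 1 := by
    rintro ⟨S, hS⟩
    by_contra hK
    exact hS (growth_of_not_kimura Φ hR p hp hb hK S).1
  tfae_finish

end Pool.Agent.Zk51.KT
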