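import Pool.Agent.Zk51.KT.Back

/-!
# Nil systems
-/

set_option autoImplicit false
set_option linter.unusedSectionVars false
set_option backward.isDefEq.respectTransparency false
set_option backward.defeqAttrib.useBackward true

open CategoryTheory Limits MonoidalCategory Module Filter Topology
open Pool.Agent.Y112.SR Pool.Agent.Y112.KD Pool.Agent.R905 Pool.Agent.N64.AF
open Pool.Agent.N413.AFW Pool.Agent.Zk51.NK
open scoped ENNReal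

namespace Pool.Agent.Zk51.KT

universe v u w v' u'

/-- A nil system on the object `Y` of a `ℚ`-linear category: a subspace of the space of the
morphisms from `Y` to `Z` for each object `Z`, stable under composition with morphisms from `Z` to
other objects, such that the endomorphisms of `Y` which belong to it are nilpotent. -/
structure NilSystem {D : Type u'} [Category.{v'} D] [Preadditive D] [Linear ℚ D] (Y : D) where
  /-- the subspaces -/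
  U : ∀ Z : D, Submodule ℚ (Y ⟶ Z)
  comp : ∀ {Z Z' : D} {f : Y ⟶ Z} (g : Z ⟶ Z'), f ∈ U Z → f ≫ g ∈ U Z'
  nil : ∀ y : End Y, (y : Y ⟶ Y) ∈ U Y → IsNilpotent y

section

variable {D : Type u'} [Category.{v'} D] [Preadditive D] [MonoidalCategory D]
  [MonoidalPreadditive D] [SymmetricCategory D] [RightRigidCategory D]
  [Linear ℚ D] [MonoidalLinear ℚ D]

/-- The dimension of the space of the numerically trivial morphisms from `Y` to `Z` modulo the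
nil system. -/
noncomputable def ndim {Y : D} (S : NilSystem Y) (Z : D) : ℕ∞ :=
  dimE ℚ (numIdeal ℚ Y Z ⧸ (S.U Z).submoduleOf (numIdeal ℚ Y Z))

variable {K : Type w} [Field K] [IsAlgClosed K] [Algebra ℚ K] {R : SuperRealisation D K}

/-- the functor of the morphisms from `Y` to `Y ⊗ Z` -/
abbrev gF (Y : D) : D ⥤ ModuleCat.{v'} ℚ := tensorLeft Y ⋙ homF ℚ Y

instance (Y : D) : (gF Y).Additive where
  map_add {Z Z'} {f g} := by
    ext a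
    change a ≫ (Y ◁ (f + g)) = a ≫ (Y ◁ f) + a ≫ (Y ◁ g)
    rw [MonoidalPreadditive.whiskerLeft_add, Preadditive.comp_add]

instance (Y : D) : (gF Y).Linear ℚ where
  map_smul {Z Z'} f c := by
    ext a
    change a ≫ (Y ◁ (c • f)) = c • (a ≫ (Y ◁ f))
    rw [MonoidalLinear.whiskerLeft_smul, Linear.comp_smul]

lemma gF_stab (hR : IsReal ℚ R) (Y : D) :
    IsStab (gF Y) (fun Z => (numIdeal ℚ Y (Y ⊗ Z) : Submodule ℚ ((gF Y).obj Z))) := by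
  intro Z Z' f α hα
  have h1 := NumTriv.comp hR (mem_numIdeal.1 hα) (𝟙 _) (Y ◁ f)
  rw [Category.id_comp] at h1
  exact h1

/-- the functor of the numerically trivial morphisms from `Y` to `Y ⊗ Z` -/
abbrev nF (hR : IsReal ℚ R) (Y : D) : D ⥤ ModuleCat.{v'} ℚ := sub (gF Y) _ (gF_stab hR Y)

lemma nF_stab (hR : IsReal ℚ R) {Y : D} (S : NilSystem Y) :
    IsStab (nF hR Y) (fun Z => ((S.U (Y ⊗ Z)).submoduleOf (numIdeal ℚ Y (Y ⊗ Z)) :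
      Submodule ℚ ((nF hR Y).obj Z))) := by
  rintro Z Z' f ⟨α, hα⟩ h
  have h1 : α ∈ S.U (Y ⊗ Z) := h
  change α ≫ (Y ◁ f) ∈ S.U (Y ⊗ Z')
  exact S.comp _ h1

/-- the functor of the numerically trivial morphisms from `Y` to `Y ⊗ Z` modulo the nil system -/
abbrev kF (hR : IsReal ℚ R) {Y : D} (S : NilSystem Y) : D ⥤ ModuleCat.{v'} ℚ :=
  quoS (nF hR Y) _ (nF_stab hR S)

lemma dimE_kF (hR : IsReal ℚ R) {Y : D} (S : NilSystem Y) (Z : D) :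
    dimE ℚ ((kF hR S).obj Z) = ndim S (Y ⊗ Z) := rfl

/-- the class of a numerically trivial morphism -/
def cls (hR : IsReal ℚ R) {Y : D} (S : NilSystem Y) {Z : D} (α : Y ⟶ Y ⊗ Z) (hα : NumTriv α) :
    (kF hR S).obj Z :=
  Submodule.Quotient.mk (⟨α, hα⟩ : numIdeal ℚ Y (Y ⊗ Z))

lemma cls_eq_zero (hR : IsReal ℚ R) {Y : D} (S : NilSystem Y) {Z : D} (α : Y ⟶ Y ⊗ Z)
    (hα : NumTriv α) (h : cls hR S α hα = 0) : α ∈ S.U (Y ⊗ Z) := by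
  have h1 : (Submodule.Quotient.mk (⟨α, hα⟩ : numIdeal ℚ Y (Y ⊗ Z)) :
    numIdeal ℚ Y (Y ⊗ Z) ⧸ (S.U (Y ⊗ Z)).submoduleOf (numIdeal ℚ Y (Y ⊗ Z))) = 0 := h
  have h2 := (Submodule.Quotient.mk_eq_zero
    ((S.U (Y ⊗ Z)).submoduleOf (numIdeal ℚ Y (Y ⊗ Z)))).1 h1
  exact h2

lemma map_cls (hR : IsReal ℚ R) {Y : D} (S : NilSystem Y) {Z Z' : D} (α : Y ⟶ Y ⊗ Z)
    (hα : NumTriv α) (f : Z ⟶ Z') (hα' : NumTriv (α ≫ (Y ◁ f))) :
    ((kF hR S).map f).hom (cls hR S α hα) = cls hR S (α ≫ (Y ◁ f)) hα' := rfl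

/-- If the functor vanishes on the unit object then the numerically trivial endomorphisms belong to
the nil system. -/
lemma mem_of_zero (hR : IsReal ℚ R) {Y : D} (S : NilSystem Y)
    (h : Subsingleton ((kF hR S).obj (𝟙_ D))) (y : Y ⟶ Y) (hy : NumTriv y) : y ∈ S.U Y := by
  have h1 : NumTriv (y ≫ (ρ_ Y).inv) := by
    have h2 := NumTriv.comp hR hy (𝟙 _) (ρ_ Y).inv
    rwa [Category.id_comp] at h2
  have h3 := cls_eq_zero hR S _ h1 (@Subsingleton.elim _ h _ _)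
  have h4 := S.comp (ρ_ Y).hom h3
  rwa [Category.assoc, Iso.inv_hom_id, Category.comp_id] at h4

/-- The representation of the endomorphisms by elements. -/
lemma exists_contr (hR : IsReal ℚ R) (T : D) (m : ℕ) :
    ∃ c : tp T m ⊗ tp (T ⊗ Tᘁ) m ⟶ tp T m, ∀ y : tp T m ⟶ tp T m, NumTriv y →
      ∃ α : 𝟙_ D ⟶ tp (T ⊗ Tᘁ) m, NumTriv α ∧ (ρ_ (tp T m)).inv ≫ (tp T m ◁ α) ≫ c = y := by
  let _ := pairTp T Tᘁ m
  refine ⟨(β_ (tp T m) (tp (T ⊗ Tᘁ) m)).hom ≫ ((isoTp T Tᘁ m).hom ▷ tp T m) ≫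
    (α_ (tp T m) (dp Tᘁ m) (tp T m)).hom ≫ (tp T m ◁ ε_ (tp T m) (dp Tᘁ m)) ≫
      (ρ_ (tp T m)).hom, fun y hy => ⟨(η_ (tp T m) (dp Tᘁ m)) ≫ (y ▷ dp Tᘁ m) ≫
        (isoTp T Tᘁ m).inv, NumTriv.comp hR (NumTriv.whiskerRight hR hy _) _ _, ?_⟩⟩
  have e1 : (ρ_ (tp T m)).inv ≫ (tp T m ◁ (η_ (tp T m) (dp Tᘁ m) ≫ (y ▷ dp Tᘁ m) ≫
      (isoTp T Tᘁ m).inv)) ≫ (β_ (tp T m) (tp (T ⊗ Tᘁ) m)).hom =
      (λ_ (tp T m)).inv ≫ ((η_ (tp T m) (dp Tᘁ m) ≫ (y ▷ dp Tᘁ m) ≫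
      (isoTp T Tᘁ m).inv) ▷ tp T m) := by
    rw [BraidedCategory.braiding_naturality_right, ← Category.assoc, braiding_tensorUnit_right]
    simp
  rw [reassoc_of% e1, ← comp_whiskerRight_assoc, Category.assoc, Category.assoc, Iso.inv_hom_id,
    Category.comp_id, comp_whiskerRight, Category.assoc]
  have e2 : (y ▷ dp Tᘁ m) ▷ tp T m ≫ (α_ (tp T m) (dp Tᘁ m) (tp T m)).hom =
      (α_ (tp T m) (dp Tᘁ m) (tp T m)).hom ≫ y ▷ (dp Tᘁ m ⊗ tp T m) := by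
    rw [associator_naturality_left]
  have e3 : y ▷ (dp Tᘁ m ⊗ tp T m) ≫ (tp T m ◁ ε_ (tp T m) (dp Tᘁ m)) =
      (tp T m ◁ ε_ (tp T m) (dp Tᘁ m)) ≫ y ▷ 𝟙_ D := (whisker_exchange _ _).symm
  rw [reassoc_of% e2, reassoc_of% e3, rightUnitor_naturality]
  have e4 : η_ (tp T m) (dp Tᘁ m) ▷ tp T m ≫ (α_ (tp T m) (dp Tᘁ m) (tp T m)).hom ≫
      tp T m ◁ ε_ (tp T m) (dp Tᘁ m) = (λ_ (tp T m)).hom ≫ (ρ_ (tp T m)).inv :=
    ExactPairing.evaluation_coevaluation _ _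
  rw [reassoc_of% e4]
  simp

/-- The representation of the powers of endomorphisms. -/
lemma exists_contr_pow (hR : IsReal ℚ R) (T : D) (m : ℕ) (y : End (tp T m))
    (hy : NumTriv (y : tp T m ⟶ tp T m)) (k : ℕ) :
    ∃ (a : ℕ) (α : tp (T ⊗ Tᘁ) 0 ⟶ tp (T ⊗ Tᘁ) a) (c : tp T m ⊗ tp (T ⊗ Tᘁ) a ⟶ tp T m),
      NumPow (T ⊗ Tᘁ) k α ∧ (ρ_ (tp T m)).inv ≫ (tp T m ◁ α) ≫ c =
        ((y ^ k : End (tp T m)) : tp T m ⟶ tp T m) := by
  induction k with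
  | zero =>
    refine ⟨0, 𝟙 _, (ρ_ (tp T m)).hom, trivial, ?_⟩
    rw [MonoidalCategory.whiskerLeft_id, Category.id_comp, Iso.inv_hom_id]
    rfl
  | succ k ih =>
    obtain ⟨a, α, c, h1, h2⟩ := ih
    obtain ⟨c₁, hc₁⟩ := exists_contr hR T m
    obtain ⟨α₁, h3, h4⟩ := hc₁ y hy
    obtain ⟨i, -⟩ := exists_tp_iso (T ⊗ Tᘁ) a m
    refine ⟨a + m, α ≫ (ρ_ _).inv ≫ (tp (T ⊗ Tᘁ) a ◁ α₁) ≫ i.hom,
      (tp T m ◁ i.inv) ≫ (α_ (tp T m) (tp (T ⊗ Tᘁ) a) (tp (T ⊗ Tᘁ) m)).inv ≫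
        (c ▷ tp (T ⊗ Tᘁ) m) ≫ c₁,
      ⟨a, α, (ρ_ _).inv ≫ (tp (T ⊗ Tᘁ) a ◁ α₁) ≫ i.hom, h1,
        NumTriv.comp hR (NumTriv.whiskerLeft hR h3 _) _ _, rfl⟩, ?_⟩
    rw [pow_succ', End.mul_def]
    have e1 : (ρ_ (tp T m)).inv ≫ (tp T m ◁ (α ≫ (ρ_ _).inv ≫ (tp (T ⊗ Tᘁ) a ◁ α₁) ≫ i.hom)) ≫
        (tp T m ◁ i.inv) ≫ (α_ (tp T m) (tp (T ⊗ Tᘁ) a) (tp (T ⊗ Tᘁ) m)).inv ≫
          (c ▷ tp (T ⊗ Tᘁ) m) ≫ c₁ =
        ((ρ_ (tp T m)).inv ≫ (tp T m ◁ α) ≫ c) ≫ (ρ_ (tp T m)).inv ≫ (tp T m ◁ α₁) ≫ c₁ := by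
      have a1 : (tp T m ◁ (α ≫ (ρ_ _).inv ≫ (tp (T ⊗ Tᘁ) a ◁ α₁) ≫ i.hom)) ≫
          (tp T m ◁ i.inv) = (tp T m ◁ α) ≫ (tp T m ◁ (ρ_ _).inv) ≫
            (tp T m ◁ (tp (T ⊗ Tᘁ) a ◁ α₁)) := by
        rw [← MonoidalCategory.whiskerLeft_comp, Category.assoc, Category.assoc, Category.assoc,
          Iso.hom_inv_id, Category.comp_id, MonoidalCategory.whiskerLeft_comp,
          MonoidalCategory.whiskerLeft_comp]
      have a2 : (tp T m ◁ (tp (T ⊗ Tᘁ) a ◁ α₁)) ≫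
          (α_ (tp T m) (tp (T ⊗ Tᘁ) a) (tp (T ⊗ Tᘁ) m)).inv =
          (α_ (tp T m) (tp (T ⊗ Tᘁ) a) (𝟙_ D)).inv ≫ ((tp T m ⊗ tp (T ⊗ Tᘁ) a) ◁ α₁) := by
        rw [associator_inv_naturality_right]
      have a3 : ((tp T m ⊗ tp (T ⊗ Tᘁ) a) ◁ α₁) ≫ (c ▷ tp (T ⊗ Tᘁ) m) =
          (c ▷ 𝟙_ D) ≫ (tp T m ◁ α₁) := whisker_exchange _ _
      have a4 : (tp T m ◁ (ρ_ (tp (T ⊗ Tᘁ) a)).inv) ≫
          (α_ (tp T m) (tp (T ⊗ Tᘁ) a) (𝟙_ D)).inv = (ρ_ (tp T m ⊗ tp (T ⊗ Tᘁ) a)).inv := by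
        simp
      have a5 : (ρ_ (tp T m ⊗ tp (T ⊗ Tᘁ) a)).inv ≫ (c ▷ 𝟙_ D) = c ≫ (ρ_ (tp T m)).inv := by
        rw [rightUnitor_inv_naturality]
      rw [reassoc_of% a1, reassoc_of% a2, reassoc_of% a3, reassoc_of% a4, reassoc_of% a5]
      simp only [Category.assoc]
    rw [e1, h2, h4]

/-- If the ratio of the dimensions has a finite limit then the numerically trivial endomorphisms are
nilpotent. -/
lemma nil_of_lim (hR : IsReal ℚ R) {T : D} [ExactPairing (T ⊗ Tᘁ) (T ⊗ Tᘁ)]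
    (h : IsPow ℚ R (T ⊗ Tᘁ)) {m : ℕ} (S : NilSystem (tp T m)) {N : ℕ}
    (hN : Tendsto (fun n => ((dimE ℚ ((kF hR S).obj (tp (T ⊗ Tᘁ) n)) : ℕ∞) : ℝ≥0∞) /
      numRank ℚ (tp (T ⊗ Tᘁ) n)) atTop (𝓝 (N : ℝ≥0∞))) (y : End (tp T m))
    (hy : NumTriv (y : tp T m ⟶ tp T m)) : IsNilpotent y := by
  obtain ⟨a, α, c, h1, h2⟩ := exists_contr_pow hR T m y hy N
  have h3 := (structure_thm h (kF hR S) hN).2 0 a α h1
  have h4 : NumTriv ((y : tp T m ⟶ tp T m) ≫ (ρ_ (tp T m)).inv) := by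
    have h2 := NumTriv.comp hR hy (𝟙 _) (ρ_ (tp T m)).inv
    rwa [Category.id_comp] at h2
  have h5 : NumTriv (((y : tp T m ⟶ tp T m) ≫ (ρ_ (tp T m)).inv) ≫ (tp T m ◁ α)) := by
    have h2 := NumTriv.comp hR hy (𝟙 _) ((ρ_ (tp T m)).inv ≫ (tp T m ◁ α))
    rwa [Category.id_comp, ← Category.assoc] at h2
  have h6 := map_cls hR S (Z := tp (T ⊗ Tᘁ) 0) ((y : tp T m ⟶ tp T m) ≫ (ρ_ (tp T m)).inv) h4 α h5
  rw [h3] at h6
  have h7 := cls_eq_zero hR S _ h5 h6.symm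
  have h8 := S.comp c h7
  have h9 : (((y : tp T m ⟶ tp T m) ≫ (ρ_ (tp T m)).inv) ≫ (tp T m ◁ α)) ≫ c =
      ((y ^ (N + 1) : End (tp T m)) : tp T m ⟶ tp T m) := by
    rw [Category.assoc, Category.assoc, h2, pow_succ, End.mul_def]
  rw [h9] at h8
  obtain ⟨k, hk⟩ := S.nil _ h8
  exact ⟨(N + 1) * k, by rw [pow_mul, hk]⟩

/-- Nilpotence descends along tensor powers. -/
lemma homNil_down (hR : IsReal ℚ R) {T : D} (hT : R.CPlus T) (hb : 0 < bt R T) {m : ℕ}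
    (h : HomNil R (tp T (m + 1))) : HomNil R (tp T m) := by
  have hc := R_charZero R
  have hfin := R.finite T
  have hU : UnitQ D := unitQ_of_real hR
  intro f hf
  obtain ⟨g, hg⟩ := P1aux.of_cplus hT
  have hf' : R.H.map ((f : tp T m ⟶ tp T m) ▷ T) = 0 := by
    rw [Functor.Monoidal.map_whiskerRight, hf, MonoidalPreadditive.zero_whiskerRight, zero_comp,
      comp_zero]
  obtain ⟨n, hn⟩ := h (en ((f : tp T m ⟶ tp T m) ▷ T)) hf'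
  refine ⟨n, ?_⟩
  have h1 : ∀ n : ℕ, (en ((f : tp T m ⟶ tp T m) ▷ T)) ^ n =
      en (((f ^ n : End (tp T m)) : tp T m ⟶ tp T m) ▷ T) := by
    intro n
    induction n with
    | zero =>
      rw [pow_zero, pow_zero]
      exact (id_whiskerRight (tp T m) T).symm
    | succ n ih =>
      rw [pow_succ, ih, pow_succ, End.mul_def, End.mul_def, en, en, en, ← comp_whiskerRight]
  rw [h1] at hn
  have h2 : ((f ^ n : End (tp T m)) : tp T m ⟶ tp T m) ⊗ₘ g = 0 := by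
    rw [MonoidalCategory.tensorHom_def]
    have h3 : ((f ^ n : End (tp T m)) : tp T m ⟶ tp T m) ▷ T = 0 := hn
    rw [h3, zero_comp]
  have h3 := ptr_tensor ((f ^ n : End (tp T m)) : tp T m ⟶ tp T m) g (trq hU T (g : End T))
    (trq_spec hU _)
  rw [h2] at h3
  have h4 : Pool.Agent.Y112.SR.ptr (0 : tp T m ⊗ T ⟶ tp T m ⊗ T) = 0 := (ptrL (tp T m) T).map_zero
  rw [h4] at h3
  have h5 : trq hU T (g : End T) ≠ 0 := by
    have h6 := real_tr R hU g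
    intro h0
    rw [h0, hg, R.par_sq, ModuleCat.hom_id, LinearMap.trace_id] at h6
    have h8 : (Module.finrank K (R.H.obj T) : K) = 0 := by
      rw [← h6]
      simp
    have h9 : Module.finrank K (R.H.obj T) = 0 := by exact_mod_cast h8
    unfold bt at hb
    omega
  have h6 : trq hU T (g : End T) • ((f ^ n : End (tp T m)) : tp T m ⟶ tp T m) = 0 := h3.symm
  exact (smul_eq_zero.1 h6).resolve_left h5

lemma homNil_le (hR : IsReal ℚ R) {T : D} (hT : R.CPlus T) (hb : 0 < bt R T) {n : ℕ}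
    (h : HomNil R (tp T n)) : ∀ m ≤ n, HomNil R (tp T m) := by
  intro m hm
  obtain ⟨k, rfl⟩ := Nat.exists_eq_add_of_le hm
  clear hm
  induction k with
  | zero => exact h
  | succ k ih => exact ih (homNil_down hR hT hb h)

end

end Pool.Agent.Zk51.KT
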