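import Pool.Agent.Zk51.KT.Nil
import Pool.Agent.Zk51.NK.Law

/-!
# Realisations of a tensor category with a faithful tensor functor to a category with a realisation
-/

set_option autoImplicit false
set_option linter.unusedSectionVars false
set_option backward.isDefEq.respectTransparency false
set_option backward.defeqAttrib.useBackward true

open CategoryTheory Limits MonoidalCategory
open Pool.Agent.Y112.SR Pool.Agent.Y112.KD Pool.Agent.R905 Pool.Agent.N64.AF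
open CategoryTheory.Functor.LaxMonoidal CategoryTheory.Functor.OplaxMonoidal

namespace Pool.Agent.Zk51.KT

universe v u w v' u'

section

variable {C : Type u} [Category.{v} C] [Preadditive C] [MonoidalCategory C] [SymmetricCategory C]
  {K : Type w} [Field K] (R : SuperRealisation C K)
  {D : Type u'} [Category.{v'} D] [Preadditive D] [MonoidalCategory D] [SymmetricCategory D]
  (Φ : D ⥤ C) [Φ.Braided] [Φ.Additive]

/-- The realisation of `D`. -/
noncomputable def pull : SuperRealisation D K where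
  H := Φ ⋙ R.H
  finite X := R.finite (Φ.obj X)
  par X := R.par (Φ.obj X)
  par_sq X := R.par_sq (Φ.obj X)
  par_natural f := R.par_natural (Φ.map f)
  par_unit := by
    have h1 := R.par_natural (ε Φ)
    rw [R.par_unit, Category.id_comp] at h1
    have h2 : IsIso (R.H.map (ε Φ)) := inferInstance
    have h3 : R.H.map (ε Φ) ≫ R.par (Φ.obj (𝟙_ D)) = R.H.map (ε Φ) ≫ 𝟙 _ := by
      rw [h1, Category.comp_id]
    exact (cancel_epi _).1 h3
  par_tensor X Y := by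
    change (μ R.H (Φ.obj X) (Φ.obj Y) ≫ R.H.map (μ Φ X Y)) ≫ R.par (Φ.obj (X ⊗ Y)) =
      (R.par (Φ.obj X) ⊗ₘ R.par (Φ.obj Y)) ≫ μ R.H (Φ.obj X) (Φ.obj Y) ≫ R.H.map (μ Φ X Y)
    rw [Category.assoc, R.par_natural, ← Category.assoc, R.par_tensor, Category.assoc]
  symm X Y := by
    change (2 : K) • ((μ R.H (Φ.obj X) (Φ.obj Y) ≫ R.H.map (μ Φ X Y)) ≫
        R.H.map (Φ.map (β_ X Y).hom)) =
      (𝟙 (R.H.obj (Φ.obj X) ⊗ R.H.obj (Φ.obj Y)) + R.par (Φ.obj X) ▷ R.H.obj (Φ.obj Y) +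
        R.H.obj (Φ.obj X) ◁ R.par (Φ.obj Y) -
        (R.par (Φ.obj X) ⊗ₘ R.par (Φ.obj Y))) ≫
      (β_ (R.H.obj (Φ.obj X)) (R.H.obj (Φ.obj Y))).hom ≫ μ R.H (Φ.obj Y) (Φ.obj X) ≫
        R.H.map (μ Φ Y X)
    have h1 : μ Φ X Y ≫ Φ.map (β_ X Y).hom = (β_ (Φ.obj X) (Φ.obj Y)).hom ≫ μ Φ Y X :=
      Functor.LaxBraided.braided X Y
    have h2 := congrArg (fun z => z ≫ R.H.map (μ Φ Y X)) (R.symm (Φ.obj X) (Φ.obj Y))
    simp only [Linear.smul_comp, Category.assoc] at h2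
    rw [Category.assoc, ← R.H.map_comp (μ Φ X Y), h1, R.H.map_comp]
    exact h2

lemma pull_H_map {X Y : D} (f : X ⟶ Y) : (pull R Φ).H.map f = R.H.map (Φ.map f) := rfl

lemma pull_bt (T : D) : bt (pull R Φ) T = bt R (Φ.obj T) := rfl

lemma pull_cplus {T : D} (p : T ⟶ T)
    (hp : (2 : K) • R.H.map (Φ.map p) = 𝟙 _ + R.par (Φ.obj T)) : (pull R Φ).CPlus T := ⟨p, hp⟩

/-- The comparison of the tensor powers. -/
noncomputable def jj (T : D) : ∀ n : ℕ, tp (Φ.obj T) n ≅ Φ.obj (tp T n)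
  | 0 => Functor.Monoidal.εIso Φ
  | n + 1 => whiskerRightIso (jj T n) (Φ.obj T) ≪≫ Functor.Monoidal.μIso Φ (tp T n) T

lemma jj_succ (T : D) (n : ℕ) : (jj Φ T (n + 1)).hom = ((jj Φ T n).hom ▷ Φ.obj T) ≫
    μ Φ (tp T n) T := rfl

lemma jj_tpm {S T : D} (f : S ⟶ T) (n : ℕ) :
    tpm (Φ.map f) n ≫ (jj Φ T n).hom = (jj Φ S n).hom ≫ Φ.map (tpm f n) := by
  induction n with
  | zero =>
    change 𝟙 _ ≫ (jj Φ T 0).hom = (jj Φ S 0).hom ≫ Φ.map (𝟙 _)
    rw [CategoryTheory.Functor.map_id, Category.id_comp, Category.comp_id]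
    rfl
  | succ n ih =>
    have e1 : tpm (Φ.map f) (n + 1) = tpm (Φ.map f) n ⊗ₘ Φ.map f := rfl
    have e2 : tpm f (n + 1) = tpm f n ⊗ₘ f := rfl
    rw [e1, e2, jj_succ, jj_succ, Category.assoc, ← μ_natural, ← Category.assoc, ← Category.assoc]
    congr 1
    rw [← tensorHom_id, ← tensorHom_id, tensorHom_comp_tensorHom, tensorHom_comp_tensorHom, ih,
      Category.id_comp, Category.comp_id]

lemma jj_sw (T : D) (n : ℕ) : sw (tp (Φ.obj T) n) (Φ.obj T) ≫ (jj Φ T (n + 2)).hom =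
    (jj Φ T (n + 2)).hom ≫ Φ.map (sw (tp T n) T) := by
  have h0 : (jj Φ T (n + 2)).hom = (((jj Φ T n).hom ▷ Φ.obj T) ▷ Φ.obj T) ≫
      (μ Φ (tp T n) T ▷ Φ.obj T) ≫ μ Φ (tp T n ⊗ T) T := by
    rw [jj_succ, jj_succ, comp_whiskerRight, Category.assoc]
  have h1 : sw (Φ.obj (tp T n)) (Φ.obj T) ≫ (μ Φ (tp T n) T ▷ Φ.obj T) ≫ μ Φ (tp T n ⊗ T) T =
      ((μ Φ (tp T n) T ▷ Φ.obj T) ≫ μ Φ (tp T n ⊗ T) T) ≫ Φ.map (sw (tp T n) T) := by
    have a1 : (μ Φ (tp T n) T ▷ Φ.obj T) ≫ μ Φ (tp T n ⊗ T) T ≫ Φ.map (α_ (tp T n) T T).hom =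
        (α_ _ _ _).hom ≫ (Φ.obj (tp T n) ◁ μ Φ T T) ≫ μ Φ (tp T n) (T ⊗ T) :=
      associativity Φ (tp T n) T T
    have a2 : (Φ.obj (tp T n) ◁ μ Φ T T) ≫ μ Φ (tp T n) (T ⊗ T) ≫
        Φ.map (α_ (tp T n) T T).inv =
        (α_ _ _ _).inv ≫ (μ Φ (tp T n) T ▷ Φ.obj T) ≫ μ Φ (tp T n ⊗ T) T :=
      associativity_inv Φ (tp T n) T T
    have a3 : μ Φ (tp T n) (T ⊗ T) ≫ Φ.map (tp T n ◁ (β_ T T).hom) =
        (Φ.obj (tp T n) ◁ Φ.map (β_ T T).hom) ≫ μ Φ (tp T n) (T ⊗ T) :=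
      (μ_natural_right Φ (tp T n) (β_ T T).hom).symm
    have a4 : μ Φ T T ≫ Φ.map (β_ T T).hom = (β_ (Φ.obj T) (Φ.obj T)).hom ≫ μ Φ T T :=
      Functor.LaxBraided.braided T T
    unfold sw
    rw [Functor.map_comp, Functor.map_comp]
    simp only [Category.assoc]
    rw [reassoc_of% a1, reassoc_of% a3, ← MonoidalCategory.whiskerLeft_comp_assoc, a4,
      MonoidalCategory.whiskerLeft_comp_assoc, a2]
  rw [h0, Category.assoc, ← h1, ← Category.assoc (sw (tp (Φ.obj T) n) (Φ.obj T)),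
    ← sw_nat_left (jj Φ T n).hom, Category.assoc]

end

section

variable {C : Type u} [Category.{v} C] [Preadditive C] [MonoidalCategory C] [SymmetricCategory C]
  [Linear ℚ C] {D : Type u'} [Category.{v'} D] [Preadditive D] [MonoidalCategory D]
  [SymmetricCategory D] [Linear ℚ D]
  (Φ : D ⥤ C) [Φ.Braided] [Φ.Additive] [Φ.Linear ℚ]

lemma jj_asym (η : ℚ) (T : D) (n : ℕ) : asym η (Φ.obj T) n ≫ (jj Φ T n).hom =
    (jj Φ T n).hom ≫ Φ.map (asym η T n) := by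
  induction n with
  | zero =>
    rw [asym_zero, asym_zero, CategoryTheory.Functor.map_id, Category.id_comp, Category.comp_id]
  | succ n ih =>
    rcases n with - | n
    · rw [asym_one, asym_one, CategoryTheory.Functor.map_id, Category.id_comp, Category.comp_id]
    · have e1 : (asym η (Φ.obj T) (n + 1) ▷ Φ.obj T) ≫ (jj Φ T (n + 2)).hom =
          (jj Φ T (n + 2)).hom ≫ Φ.map (asym η T (n + 1) ▷ T) := by
        rw [jj_succ Φ T (n + 1), ← comp_whiskerRight_assoc, ih, comp_whiskerRight_assoc,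
          μ_natural_left, Category.assoc]
      have e2 := jj_sw Φ T n
      rw [asym_succ, asym_succ]
      simp only [Functor.map_add, Functor.map_smul, Functor.map_comp, Preadditive.add_comp,
        Preadditive.comp_add, Linear.smul_comp, Linear.comp_smul, Category.assoc]
      rw [e1, reassoc_of% e2, reassoc_of% e1]

end

end Pool.Agent.Zk51.KT
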